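import Pool.Agent.E8helper75.OB.Ext

/-!
# One-sided bounds for the products of Birch and Swinnerton-Dyer

Let `A` be an abelian variety of dimension `g` over `ℚ`, `S` a finite set of primes containing those of bad
reduction, `L(A, s)` its L-function (the Euler product over the primes outside `S`, `Re s > 3/2`), `N_p` and
`N_{p²}` the numbers of its points over the fields with `p` and `p²` elements, and

`P(x) = ∏_{p ≤ x, p ∉ S} N_p / p^g`,  `Q(x) = P(x) ∏_{√x < p ≤ x, p ∉ S} (p^{2g} / N_{p²})^{1/2}`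

(`P` are the products of Birch and Swinnerton-Dyer, `P / Q` is bounded above and below). They conjectured
`P(x) ~ C (log x)^r` with `r` the rank of `A(ℚ)`. It is known that such an asymptotic formula implies the Riemann
hypothesis for `L(A, s)`, the equality of `r` and the order at `s = 1` and a formula for the leading coefficient
(Goldfeld 1982 for elliptic curves; Kuo and Murty, Conrad).

Here only ONE-SIDED bounds are assumed, and about `L(A, s)` nothing but the continuation to a neighbourhood of the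
segment `[1, 3/2]` (part of the conjecture of Birch and Swinnerton-Dyer); no continuation to the half-plane and no
functional equation. The bound `P(x) = O((log x)^ρ)` for a single real `ρ` implies that `L(A, s)` extends to a
holomorphic function without zeros on `Re s > 1`, that the order at `s = 1` is at most `ρ`, and that it is the
exponent of the growth of the geometric means of `Q(e^t)`. If the bound holds with `ρ = r`, then both assertions
about `L(A, s)` in the conjecture together, `(s - 1)^{-r} L(A, s) → B` with `B` the arithmetic side, are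
EQUIVALENT to the convergence of the geometric means of `Q(e^t) / t^r` over `0 ≤ t ≤ T` to `e^{γr} / B`, and it is
enough that they converge to this number along one sequence `T_k → ∞`. The same holds with lower bounds, if
there are no real zeros on `(1, 3/2]`; then the order is at least `ρ`. Without any hypothesis on the products, the
upper limit of `Q(x) / (log x)^r` is at least `e^{γr} / B` if `(s - 1)^{-r} L(A, s) → B > 0`; if it is not larger,
then the asymptotic formula holds in the mean, hence for all `x = e^t` with `t` outside a set of density zero.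
-/

set_option autoImplicit false

namespace Pool.Agent.Results.MP_dfae13_nt.OneSidedProductsH75

open Filter Topology
open Pool.Agent.TH958.BV (cone)

section defs

variable {n : ℕ}

/-- The number of the points with coordinates in the field with `p^e` elements of the projective scheme
`A` over `ℤ` defined by the homogeneous polynomials `X`: the number of the nonzero solutions divided by
`p^e - 1`. -/
noncomputable def points (X : Set (MvPolynomial (Fin n) ℤ)) (p : Nat.Primes) (e : ℕ) : ℝ :=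
  haveI : Fact (p : ℕ).Prime := ⟨p.2⟩
  (cone X (Int.castRingHom (GaloisField (p : ℕ) e)) : ℝ) / (((p : ℕ) : ℝ) ^ e - 1)

/-- `α_1, …, α_{2g}` are the eigenvalues of the geometric Frobenius at `p` on the first cohomology of the
abelian variety `A` of dimension `g` defined by `X`: they are the zeros of a polynomial with integral
coefficients, of absolute value `p^{1/2}`, and the number of the points of `A` over the field with `p^e`
elements is `∏ (1 - α_j^e)` for every `e ≥ 1`. By Weil this holds at all primes of good reduction. -/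
def IsFrobenius (X : Set (MvPolynomial (Fin n) ℤ)) (g : ℕ) (p : Nat.Primes) (α : Fin (2 * g) → ℂ) :
    Prop :=
  (∃ P : Polynomial ℤ, P.map (Int.castRingHom ℂ) = ∏ j, (Polynomial.X - Polynomial.C (α j))) ∧
    (∀ j, ‖α j‖ = √((p : ℕ) : ℝ)) ∧ ∀ e : ℕ, e ≠ 0 → (points X p e : ℂ) = ∏ j, (1 - α j ^ e)

/-- `L(A, s) = ∏_{p ∉ S} ∏_j (1 - α_{p,j} p^{-s})⁻¹`. -/
noncomputable def LFun {N : ℕ} (S : Finset Nat.Primes) (α : Nat.Primes → Fin N → ℂ) (s : ℂ) : ℂ :=
  open Classical in
  ∏' p : Nat.Primes, if p ∈ S then 1 else ∏ j, (1 - α p j * ((p : ℕ) : ℂ) ^ (-s))⁻¹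

/-- `F` is the L-function for `Re s > 3/2`. -/
def Extends {N : ℕ} (S : Finset Nat.Primes) (α : Nat.Primes → Fin N → ℂ) (F : ℂ → ℂ) : Prop :=
  ∀ s : ℂ, 3 / 2 < s.re → F s = LFun S α s

/-- `L(A, s)` extends to a holomorphic function without zeros on the half-plane `Re s > σ`. -/
def ZeroFree {N : ℕ} (S : Finset Nat.Primes) (α : Nat.Primes → Fin N → ℂ) (σ : ℝ) : Prop :=
  ∃ G : ℂ → ℂ, (∀ s : ℂ, σ < s.re → DifferentiableAt ℂ G s ∧ G s ≠ 0) ∧ Extends S α G

/-- There are finitely many primes up to `x`. -/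
theorem finite_upTo (S : Finset Nat.Primes) (x : ℝ) :
    {p : Nat.Primes | ((p : ℕ) : ℝ) ≤ x ∧ p ∉ S}.Finite := Pool.Agent.E8helper75.OB.finite_pr S x

/-- The primes `p ≤ x` outside `S`. -/
noncomputable def upTo (S : Finset Nat.Primes) (x : ℝ) : Finset Nat.Primes := (finite_upTo S x).toFinset

/-- The product `P(x) = ∏_{p ≤ x, p ∉ S} N_p / p^g` of Birch and Swinnerton-Dyer. -/
noncomputable def prodP (X : Set (MvPolynomial (Fin n) ℤ)) (g : ℕ) (S : Finset Nat.Primes) (x : ℝ) : ℝ :=
  ∏ p ∈ upTo S x, points X p 1 / ((p : ℕ) : ℝ) ^ g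

/-- The product `Q(x) = P(x) ∏_{√x < p ≤ x, p ∉ S} (p^{2g} / N_{p²})^{1/2}`. -/
noncomputable def prodQ (X : Set (MvPolynomial (Fin n) ℤ)) (g : ℕ) (S : Finset Nat.Primes) (x : ℝ) : ℝ :=
  open Classical in
  prodP X g S x * ∏ p ∈ upTo S x \ upTo S (√x), √((((p : ℕ) : ℝ) ^ 2) ^ g / points X p 2)

/-- `f(x) = O((log x)^ρ)`, an upper bound only. -/
def Above (f : ℝ → ℝ) (ρ : ℝ) : Prop := ∃ C : ℝ, ∀ᶠ x : ℝ in atTop, f x ≤ C * Real.log x ^ ρ

/-- `f(x) ≥ c (log x)^ρ`, a lower bound only. -/
def Below (f : ℝ → ℝ) (ρ : ℝ) : Prop := ∃ c : ℝ, 0 < c ∧ ∀ᶠ x : ℝ in atTop, c * Real.log x ^ ρ ≤ f x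

/-- `F` has no real zeros between `σ` (excluded) and `3/2`. -/
def NoRealZero (F : ℂ → ℂ) (σ : ℝ) : Prop := ∀ x : ℝ, σ < x → x ≤ 3 / 2 → F x ≠ 0

/-- The geometric mean of `f` over `[0, T]`. -/
noncomputable def geomMean (f : ℝ → ℝ) (T : ℝ) : ℝ :=
  Real.exp ((∫ t in (0 : ℝ)..T, Real.log (f t)) / T)

end defs

theorem pt {n g : ℕ} {X : Set (MvPolynomial (Fin n) ℤ)} {S : Finset Nat.Primes}
    {α : Nat.Primes → Fin (2 * g) → ℂ} (hα : ∀ p ∉ S, IsFrobenius X g p (α p)) :
    Pool.Agent.E8helper25.LT.Pt S α (points X) := by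
  intro p hp
  obtain ⟨h1, h2, h3⟩ := hα p hp
  refine ⟨h1, h2, fun e he => ⟨?_, h3 e he⟩⟩
  unfold points
  refine div_nonneg (Nat.cast_nonneg _) ?_
  have : (1 : ℝ) ≤ ((p : ℕ) : ℝ) ^ e := one_le_pow₀ (by exact_mod_cast p.2.one_lt.le)
  linarith

/-- **One-sided bounds for the products of Birch and Swinnerton-Dyer.** Let `A` be an abelian variety of
dimension `g` over `ℚ`, defined by the homogeneous polynomials `X` with integral coefficients, `S` a finite
set of primes which contains the primes of bad reduction of `A` (or of `X`), and `F` an extension of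
`L(A, s)` from `Re s > 3/2`.

1. Let `0 ≤ θ < 1/2` and `F` analytic at the real points of `(1 + θ, 3/2]`. If `P(x) ≤ exp(x^{θ + η})` for all
`η > 0` and large `x`, or if `P(x) ≥ exp(-x^{θ + η})` for all `η > 0` and large `x` and `F` has no zeros on
`(1 + θ, 3/2]`, then `L(A, s)` extends to a holomorphic function without zeros on `Re s > 1 + θ`.
2. Let `F` be analytic at the points of `[1, 3/2]`, and let either `P(x) = O((log x)^ρ₀)` for some real `ρ₀`, or
`P(x) ≥ c (log x)^ρ₀` for some real `ρ₀` and `F` without zeros on `(1, 3/2]`. Then `L(A, s)` extends to a holomorphic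
function without zeros on `Re s > 1`. Let `m` be the order of `F` at `1`. Then
`m ≤ ρ` whenever `P(x) = O((log x)^ρ)`, `m ≥ ρ` whenever `P(x) ≥ c (log x)^ρ`, `(s - 1)^{-m} F(s)` has a
positive limit, and the geometric mean of `Q(e^t)` over `[0, T]` is `T^{m + o(1)}`.
3. If this holds with a natural number `ρ₀ = r`, then for every `B > 0` the following are equivalent:
`(s - 1)^{-r} F(s) → B`; the geometric means of `Q(e^t) / t^r` over `[0, T_k]` tend to `e^{γr} / B` for one sequence
`T_k → ∞`; the geometric means over `[0, T]` tend to `e^{γr} / B` for `T → ∞`.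
4. Let `F` be analytic at the points of `[1, 3/2]` and `(s - 1)^{-r} F(s) → B > 0`. Then
`limsup Q(x) / (log x)^r ≥ e^{γr} / B`, and `liminf Q(x) / (log x)^r ≤ e^{γr} / B` if `F` has no zeros on `(1, 3/2]`. If
the upper limit is at most `e^{γr} / B`, or if the lower limit is at least `e^{γr} / B` and `F` has no zeros on
`(1, 3/2]`, then the means over `[0, T]` of the distances of `log (Q(e^t) / t^r)` to `log (e^{γr} / B)` tend to zero. -/
theorem result (n g : ℕ) (X : Set (MvPolynomial (Fin n) ℤ)) (S : Finset Nat.Primes)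
    (α : Nat.Primes → Fin (2 * g) → ℂ) (hα : ∀ p ∉ S, IsFrobenius X g p (α p))
    (F : ℂ → ℂ) (hF : Extends S α F) :
    (∀ θ : ℝ, 0 ≤ θ → θ < 1 / 2 → (∀ x : ℝ, 1 + θ < x → x ≤ 3 / 2 → AnalyticAt ℂ F x) →
      ((∀ η : ℝ, 0 < η → ∀ᶠ x : ℝ in atTop, prodP X g S x ≤ Real.exp (x ^ (θ + η))) ∨
        ((∀ η : ℝ, 0 < η → ∀ᶠ x : ℝ in atTop, Real.exp (-x ^ (θ + η)) ≤ prodP X g S x) ∧
          NoRealZero F (1 + θ))) →
      ZeroFree S α (1 + θ)) ∧
    ((∀ x ∈ Set.Icc (1 : ℝ) (3 / 2), AnalyticAt ℂ F x) → ∀ ρ₀ : ℝ,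
      (Above (prodP X g S) ρ₀ ∨ (Below (prodP X g S) ρ₀ ∧ NoRealZero F 1)) →
      ZeroFree S α 1 ∧ ∃ (m : ℕ) (B : ℝ), 0 < B ∧
        Tendsto (fun s => F s / (s - 1) ^ m) (𝓝[≠] 1) (𝓝 (B : ℂ)) ∧
        (∀ ρ : ℝ, Above (prodP X g S) ρ → (m : ℝ) ≤ ρ) ∧
        (∀ ρ : ℝ, Below (prodP X g S) ρ → ρ ≤ m) ∧
        Tendsto (fun T => Real.log (geomMean (fun t => prodQ X g S (Real.exp t)) T) / Real.log T)
          atTop (𝓝 (m : ℝ))) ∧
    ((∀ x ∈ Set.Icc (1 : ℝ) (3 / 2), AnalyticAt ℂ F x) → ∀ r : ℕ,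
      (Above (prodP X g S) r ∨ (Below (prodP X g S) r ∧ NoRealZero F 1)) → ∀ B : ℝ, 0 < B →
      List.TFAE [
        Tendsto (fun s => F s / (s - 1) ^ r) (𝓝[≠] 1) (𝓝 (B : ℂ)),
        ∃ T : ℕ → ℝ, Tendsto T atTop atTop ∧
          Tendsto (fun k => geomMean (fun t => prodQ X g S (Real.exp t) / t ^ r) (T k)) atTop
            (𝓝 (Real.exp (r * Real.eulerMascheroniConstant) / B)),
        Tendsto (fun T => geomMean (fun t => prodQ X g S (Real.exp t) / t ^ r) T) atTop
          (𝓝 (Real.exp (r * Real.eulerMascheroniConstant) / B))]) ∧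
    ((∀ x ∈ Set.Icc (1 : ℝ) (3 / 2), AnalyticAt ℂ F x) → ∀ (r : ℕ) (B : ℝ), 0 < B →
      Tendsto (fun s => F s / (s - 1) ^ r) (𝓝[≠] 1) (𝓝 (B : ℂ)) →
      (∀ c : ℝ, c < Real.exp (r * Real.eulerMascheroniConstant) / B →
        ∃ᶠ x : ℝ in atTop, c * Real.log x ^ r < prodQ X g S x) ∧
      (NoRealZero F 1 → ∀ c : ℝ, Real.exp (r * Real.eulerMascheroniConstant) / B < c →
        ∃ᶠ x : ℝ in atTop, prodQ X g S x < c * Real.log x ^ r) ∧
      (((∀ c : ℝ, Real.exp (r * Real.eulerMascheroniConstant) / B < c →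
          ∀ᶠ x : ℝ in atTop, prodQ X g S x ≤ c * Real.log x ^ r) ∨
        (NoRealZero F 1 ∧
          ∀ c : ℝ, 0 < c → c < Real.exp (r * Real.eulerMascheroniConstant) / B →
          ∀ᶠ x : ℝ in atTop, c * Real.log x ^ r ≤ prodQ X g S x)) →
        Tendsto (fun T : ℝ => (∫ t in (0 : ℝ)..T, |Real.log (prodQ X g S (Real.exp t) / t ^ r) -
          Real.log (Real.exp (r * Real.eulerMascheroniConstant) / B)|) / T) atTop (𝓝 0))) := by
  have h := pt hα
  refine ⟨fun θ hθ hθ2 ha ho => ?_, fun ha ρ₀ ho => ?_, fun ha r ho B hB => ?_,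
    fun ha r B hB hlim => ?_⟩
  · rcases ho with ho | ⟨ho, hz⟩
    · refine Pool.Agent.E8helper75.OB.sub_exp h hF hθ hθ2 ha (Or.inl rfl) (fun η hη => ?_)
        (fun h2 => by norm_num at h2)
      filter_upwards [Real.tendsto_exp_atTop.eventually (ho η hη)] with T hT
      have h1 := Real.log_le_log (Pool.Agent.E8helper75.OB.Pn_pos h _) hT
      rw [Real.log_exp, ← Real.exp_mul] at h1
      rw [one_mul, mul_comm (θ + η) T]
      exact h1
    · refine Pool.Agent.E8helper75.OB.sub_exp h hF hθ hθ2 ha (Or.inr rfl) (fun η hη => ?_)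
        (fun _ => hz)
      filter_upwards [Real.tendsto_exp_atTop.eventually (ho η hη)] with T hT
      have h1 := Real.log_le_log (Real.exp_pos _) hT
      rw [Real.log_exp, ← Real.exp_mul] at h1
      rw [mul_comm (θ + η) T]
      have h2 : Real.log (prodP X g S (Real.exp T)) =
        Real.log (Pool.Agent.E8helper75.OB.Pn S g (points X) (Real.exp T)) := rfl
      rw [h2] at h1
      linarith
  · exact Pool.Agent.E8helper75.OB.rank_main h hF ha ho
  · exact Pool.Agent.E8helper75.OB.lead_main h hF ha ho hB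
  · exact Pool.Agent.E8helper75.OB.limits h hF ha hB hlim

end Pool.Agent.Results.MP_dfae13_nt.OneSidedProductsH75
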