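import Pool.Agent.E8helper75.F3.AllF
import Pool.Agent.E8helper75.F3.Cnt
import Pool.Agent.Y948.CQ.C2

/-!
# The 2-part of the strong conjecture of Birch and Swinnerton-Dyer for the curves `y² = x³ + (1 + i)³ C x`
# over `ℚ(i)`, `C` any odd squarefree Gaussian integer

`K` is a number field with an isomorphism `e` of the ring `ℤ[i]` of Gaussian integers with its ring
of integers (so `K = ℚ(i)`), `C` is an odd squarefree Gaussian integer: `C = w ∏ p` (`p ∈ S`) with a unit
`w` and a finite set `S` of primary primes of `ℤ[i]`; and `E_C : y² = x³ + (1 + i)³ C x` is the quartic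
twist by `(1 + i)³ C` of `y² = x³ + x`. Let `z = L(E_C/K, 1) √|disc K| #E_C(K)_tors² / (Ω ∏ c_v)`, which
is zero or the order of `Ш(E_C/K)` according to the conjecture. With no hypothesis on the rank or on `Ш`
we prove:
* `L(E_C/K, s)` is entire, the equation of `E_C` is minimal at all the finite places,
  `∏ c_v = 2 * 2 ^ #S`, and the order of the torsion subgroup is twice an odd number;
* `z` is integral at all the valuations of `ℂ` above two, and it is a unit at one of them iff it is so
  at all of them iff the group `E_C(K)` is finite and `Ш(E_C/K)[2]` is zero iff the matrix `mat w S` over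
  `𝔽₂` of the quadratic residue symbols is not singular (the implication from algebra to analysis is a
  2-converse theorem, that from analysis to algebra is the 2-part of the formula);
* in this case `E_C(K)` is finite, the 2-primary part of `Ш(E_C/K)` is zero and `L(E_C/K, 1) ≠ 0`;
* the proportion of the odd squarefree `C` with this property, ordered by norm, exists and is
  `∏ (1 - 2 ^ (-(2 i + 1))) = 0.4194...`
-/

set_option autoImplicit false

namespace Pool.Agent.Results.MP_9ab903_nt.TwoPartAllOddTwistsH75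

open NumberField IsDedekindDomain
open Pool.Agent.TH841.NF.D (Sha)

/-- `g` is primary: `g ≡ 1` modulo `2 + 2i`. -/
def Primary (g : GaussianInt) : Prop := (⟨2, 2⟩ : GaussianInt) ∣ g - 1

/-- The curve `y² = x³ + (1 + i)³ C x`, the quartic twist by `(1 + i)³ C` of the curve `y² = x³ + x`;
note that `(1 + i)³ = -2 + 2 i`. -/
noncomputable def curve {K : Type} [Field K] [NumberField K] (e : GaussianInt ≃+* 𝓞 K)
    (C : GaussianInt) : WeierstrassCurve K :=
  ⟨0, 0, 0, algebraMap (𝓞 K) K (e (⟨-2, 2⟩ * C)), 0⟩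

open scoped Classical in
/-- The equation `E` is minimal at every finite place `v`, and `c v` is the Tamagawa number of `E` at
`v`: the index in `E(K_v)` of the subgroup of the points of nonsingular reduction. -/
def IsTamagawa {K : Type} [Field K] [NumberField K] (E : WeierstrassCurve K)
    (c : HeightOneSpectrum (𝓞 K) → ℕ) : Prop :=
  (∀ v : HeightOneSpectrum (𝓞 K),
    (E.baseChange (v.adicCompletion K)).IsMinimal (v.adicCompletionIntegers K) ∧
    ∃ H : AddSubgroup (E.baseChange (v.adicCompletion K)).toAffine.Point,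
      (∀ P, P ∈ H ↔ Pool.Agent.Y696.NonsingRed Valued.v (E.baseChange (v.adicCompletion K)) P) ∧
      H.index = c v) ∧
  {v | c v ≠ 1}.Finite

/-- `Λ` is the lattice of periods of the differential `dx / (2y + a₁x + a₃)` of the curve `E`, embedded
in the complex numbers by `σ`. -/
def IsPeriodLattice {K : Type} [Field K] (E : WeierstrassCurve K) (σ : K →+* ℂ)
    (Λ : PeriodPair) : Prop :=
  Λ.g₂ = σ E.c₄ / 12 ∧ Λ.g₃ = σ E.c₆ / 216

/-- Twice the area of a fundamental parallelogram of the lattice. -/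
noncomputable def period (Λ : PeriodPair) : ℝ := 2 * |((starRingEnd ℂ) Λ.ω₁ * Λ.ω₂).im|

open Classical in
/-- The order of the torsion subgroup of `E(K)`. -/
noncomputable def torsOrder {K : Type} [Field K] (E : WeierstrassCurve K) : ℕ :=
  Nat.card (AddCommGroup.torsion E.toAffine.Point)

/-- The order of the Tate-Shafarevich group predicted by the formula in rank zero, for the value `l` of
the L-function at `s = 1`: `l √|disc K| #E(K)_tors² / (Ω ∏ c_v)`. -/
noncomputable def anOrder {K : Type} [Field K] [NumberField K] (E : WeierstrassCurve K) (l : ℂ)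
    (Λ : PeriodPair) (c : HeightOneSpectrum (𝓞 K) → ℕ) : ℂ :=
  l * (Real.sqrt |(discr K : ℝ)| : ℝ) * (torsOrder E : ℂ) ^ 2 /
    ((period Λ : ℂ) * ((∏ᶠ v, c v : ℕ) : ℂ))

/-- `L` is an entire continuation of the L-series of `E`. -/
def IsL {K : Type} [Field K] [NumberField K] (E : WeierstrassCurve K) (L : ℂ → ℂ) : Prop :=
  Differentiable ℂ L ∧ ∀ s : ℂ, 3 / 2 < s.re →
    LSeriesSummable ((fun n : ℤ => (n : ℂ)) ∘ E.LFunction) s ∧ L s = E.LSeries s

open Classical in
/-- `0` if `a` is a square modulo `p`, and `1` if it is not. -/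
noncomputable def nonsq (a p : GaussianInt) : ZMod 2 := if ∃ b : GaussianInt, p ∣ b ^ 2 - a then 0 else 1

/-- The matrix over the field with two elements, with rows and columns indexed by the set `S` of primary
primes of `ℤ[i]`: the entry at `(p, q)` is `nonsq p q` for `p ≠ q`, and the entry at `(p, p)` is the sum
of `nonsq ((1 + i)³ w) p` and of the `nonsq p q` for the `q ≠ p` in `S`. -/
noncomputable def mat (w : GaussianInt) (S : Finset GaussianInt) : Matrix S S (ZMod 2) :=
  Matrix.of fun p q =>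
    if q = p then nonsq (⟨-2, 2⟩ * w) p + ∑ r ∈ S.erase (p : GaussianInt), nonsq p r else nonsq p q

/-- The 2-part of the conjecture of Birch and Swinnerton-Dyer for a curve `E` over an imaginary quadratic
field `K`, in the case that the predicted order of `Ш` is a unit above two: `E(K)` is finite, the
2-primary part of `Ш(E/K)` is trivial, `L(E/K, s)` is entire, `L(E/K, 1) ≠ 0`, and the predicted order of
`Ш(E/K)` is a unit at every valuation `w` of the field of complex numbers with `w 2 < 1`. -/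
def TwoPart {K : Type} [Field K] [NumberField K] (E : WeierstrassCurve K) : Prop :=
  Finite E.toAffine.Point ∧ (∀ (n : ℕ) (x : Sha E), 2 ^ n • x = 0 → x = 0) ∧
  ∃ (L : ℂ → ℂ) (c : HeightOneSpectrum (𝓞 K) → ℕ), IsL E L ∧ L 1 ≠ 0 ∧ IsTamagawa E c ∧
    ∀ σ : K →+* ℂ, (∃ Λ : PeriodPair, IsPeriodLattice E σ Λ) ∧
      ∀ Λ : PeriodPair, IsPeriodLattice E σ Λ →
        ∀ (Γ : Type) [LinearOrderedCommGroupWithZero Γ] (w : Valuation ℂ Γ), w 2 < 1 →
          w (anOrder E (L 1) Λ c) = 1

/-- The group `E(K)` is finite and `Ш(E/K)` has no element of order two. -/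
def NoSelmer {K : Type} [Field K] [NumberField K] (E : WeierstrassCurve K) : Prop :=
  Finite E.toAffine.Point ∧ ∀ x : Sha E, 2 • x = 0 → x = 0

/-- The statement for the curve `y² = x³ + (1 + i)³ C x`, where `C = w ∏ p`, `p ∈ S`. -/
def Criterion {K : Type} [Field K] [NumberField K] (e : GaussianInt ≃+* 𝓞 K) (w : GaussianInt)
    (S : Finset GaussianInt) : Prop :=
  (∃ (L : ℂ → ℂ) (c : HeightOneSpectrum (𝓞 K) → ℕ), IsL (curve e (w * ∏ p ∈ S, p)) L ∧
    IsTamagawa (curve e (w * ∏ p ∈ S, p)) c ∧ ∏ᶠ v, c v = 2 * 2 ^ S.card ∧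
    (∃ t : ℕ, Odd t ∧ torsOrder (curve e (w * ∏ p ∈ S, p)) = 2 * t) ∧
    ∀ σ : K →+* ℂ, (∃ Λ : PeriodPair, IsPeriodLattice (curve e (w * ∏ p ∈ S, p)) σ Λ) ∧
      ∀ Λ : PeriodPair, IsPeriodLattice (curve e (w * ∏ p ∈ S, p)) σ Λ →
        ∀ (Γ : Type) [LinearOrderedCommGroupWithZero Γ] (v : Valuation ℂ Γ), v 2 < 1 →
          v (anOrder (curve e (w * ∏ p ∈ S, p)) (L 1) Λ c) ≤ 1 ∧
          (v (anOrder (curve e (w * ∏ p ∈ S, p)) (L 1) Λ c) = 1 ↔
            NoSelmer (curve e (w * ∏ p ∈ S, p)))) ∧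
  (NoSelmer (curve e (w * ∏ p ∈ S, p)) ↔ (mat w S).det ≠ 0) ∧
  ((mat w S).det ≠ 0 → TwoPart (curve e (w * ∏ p ∈ S, p)))

/-- The odd squarefree Gaussian integers of norm at most `X`. -/
def Family (X : ℕ) : Set GaussianInt :=
  {C | C.norm.natAbs ≤ X ∧ ¬ (⟨1, 1⟩ : GaussianInt) ∣ C ∧ Squarefree C}

/-- Those `C` such that the 2-part of the conjecture holds for `y² = x³ + (1 + i)³ C x` over `K = ℚ(i)`
(every number field `K` with an isomorphism `e` of `ℤ[i]` with its ring of integers), with a predicted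
order of `Ш` that is a unit above two. -/
def Proved (X : ℕ) : Set GaussianInt :=
  {C | C ∈ Family X ∧ ∀ (K : Type) [Field K] [NumberField K] (e : GaussianInt ≃+* 𝓞 K),
    TwoPart (curve e C)}

section proof

open Pool.Agent.E8helper75.F3
open Pool.Agent.E8helper75.F3.C (Us mem_Us Us_card coef_Us exists_wS wS_odd wS_norm wS_inj good_card)
open Pool.Agent.Y697.MQ (OP Pr_iff)
open Pool.Agent.Y697.PP (SS mem_SS NS)

lemma op_iff (p : GaussianInt) : Prime p ∧ Primary p ↔ OP p :=
  ⟨fun h => ⟨h.1, (Pr_iff p).2 h.2⟩, fun h => ⟨h.pr, (Pr_iff p).1 h.pm⟩⟩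

theorem criterion {K : Type} [Field K] [NumberField K] (e : GaussianInt ≃+* 𝓞 K) {w : GaussianInt}
    (hw : IsUnit w) {S : Finset GaussianInt} (hS : ∀ l ∈ S, OP l) : Criterion e w S := by
  have h := all_crit e (coef_Us (mem_Us.2 hw)) hS
  have hc : curve e (w * ∏ p ∈ S, p) = Pool.Agent.E8helper75.F3.C.curve e (⟨-2, 2⟩ * w) (∏ p ∈ S, p) := by
    unfold curve Pool.Agent.E8helper75.F3.C.curve
    rw [mul_assoc]
  unfold Criterion
  rw [hc]
  exact h

/-- the pairs of a unit and a set of primes -/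
noncomputable def PS (X : ℕ) : Finset (GaussianInt × Finset GaussianInt) := Us ×ˢ SS X

/-- the Gaussian integer of a pair -/
noncomputable def ev (t : GaussianInt × Finset GaussianInt) : GaussianInt := t.1 * ∏ p ∈ t.2, p

lemma ev_inj (X : ℕ) : Set.InjOn ev (PS X : Set (GaussianInt × Finset GaussianInt)) := by
  rintro ⟨w, S⟩ h1 ⟨w', S'⟩ h2 h
  unfold PS at h1 h2
  rw [Finset.mem_coe, Finset.mem_product, mem_SS, mem_Us] at h1 h2
  obtain ⟨e1, e2⟩ := wS_inj h1.1 h2.1 h1.2.1 h2.2.1 h
  simp only at e1 e2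
  rw [e1, e2]

theorem family_eq (X : ℕ) : Family X = (((PS X).image ev : Finset GaussianInt) : Set GaussianInt) := by
  classical
  ext D
  rw [Finset.mem_coe, Finset.mem_image]
  constructor
  · rintro ⟨h1, h2, h3⟩
    obtain ⟨w, S, hw, hS, rfl⟩ := exists_wS h2 h3
    refine ⟨(w, S), ?_, rfl⟩
    unfold PS
    rw [Finset.mem_product, mem_SS, mem_Us]
    refine ⟨hw, hS, ?_⟩
    rw [wS_norm hw] at h1
    exact h1
  · rintro ⟨⟨w, S⟩, hS, rfl⟩
    unfold PS at hS
    rw [Finset.mem_product, mem_SS, mem_Us] at hS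
    have h1 := wS_odd hS.1 hS.2.1
    refine ⟨?_, h1.1, h1.2⟩
    show (w * ∏ p ∈ S, p).norm.natAbs ≤ X
    rw [wS_norm hS.1]
    exact hS.2.2

theorem family_card (X : ℕ) : (Family X).ncard = 4 * (SS X).card := by
  classical
  rw [family_eq, Set.ncard_coe_finset, Finset.card_image_of_injOn (ev_inj X)]
  unfold PS
  rw [Finset.card_product, Us_card]

open scoped Classical in
theorem proved_card (X : ℕ) :
    (Proved X).ncard = 4 * ((SS X).filter fun S => Pool.Agent.E8helper75.F3D.Dt S).card := by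
  have h1 : Proved X = ((((PS X).filter fun t => (mat t.1 t.2).det ≠ 0).image ev :
      Finset GaussianInt) : Set GaussianInt) := by
    ext D
    rw [Finset.mem_coe, Finset.mem_image]
    constructor
    · rintro ⟨h1, h2⟩
      rw [family_eq, Finset.mem_coe, Finset.mem_image] at h1
      obtain ⟨⟨w, S⟩, hS, rfl⟩ := h1
      refine ⟨(w, S), ?_, rfl⟩
      rw [Finset.mem_filter]
      refine ⟨hS, ?_⟩
      unfold PS at hS
      rw [Finset.mem_product, mem_SS, mem_Us] at hS
      obtain ⟨g1, g2, -⟩ := h2 Pool.Agent.E8helper21.QT.GF Pool.Agent.E8helper21.QT.eGF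
      exact (criterion Pool.Agent.E8helper21.QT.eGF hS.1 hS.2.1).2.1.1
        ⟨g1, fun x hx => g2 1 x (by rw [pow_one]; exact hx)⟩
    · rintro ⟨⟨w, S⟩, hS, rfl⟩
      rw [Finset.mem_filter] at hS
      refine ⟨?_, fun K _ _ e => ?_⟩
      · rw [family_eq, Finset.mem_coe, Finset.mem_image]
        exact ⟨(w, S), hS.1, rfl⟩
      · obtain ⟨hS1, hS2⟩ := hS
        unfold PS at hS1
        rw [Finset.mem_product, mem_SS, mem_Us] at hS1
        exact (criterion e hS1.1 hS1.2.1).2.2 hS2
  have h2 : ((PS X).filter fun t => (mat t.1 t.2).det ≠ 0).card =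
      ∑ w ∈ Us, ((SS X).filter fun S => (mat w S).det ≠ 0).card := by
    unfold PS
    rw [Finset.card_filter, Finset.sum_product]
    refine Finset.sum_congr rfl fun w _ => ?_
    rw [Finset.card_filter]
  rw [h1, Set.ncard_coe_finset, Finset.card_image_of_injOn
    ((ev_inj X).mono (by rw [Finset.coe_subset]; exact Finset.filter_subset _ _)), h2]
  have h3 : ∀ w ∈ Us, ((SS X).filter fun S => (mat w S).det ≠ 0).card =
      ((SS X).filter fun S => Pool.Agent.E8helper75.F3D.Dt S).card := fun w hw =>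
    good_card a_THR a_SUP3 (coef_Us hw) X
  rw [Finset.sum_congr rfl h3, Finset.sum_const, Us_card, smul_eq_mul]

end proof

open Pool.Agent.E8helper75.F3 in
/-- **Main theorem.** Every odd squarefree Gaussian integer `C` is a unit `w` times the product of a finite
set `S` of primary primes; for all `w` and `S` the statement `Criterion` holds for
`y² = x³ + (1 + i)³ C x`; and the proportion of the odd squarefree `C` of norm at most `X` that satisfy
`TwoPart` tends to `∏ (1 - 2 ^ (-(2 i + 1))) = 0.4194...` as `X` grows. -/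
theorem result :
    (∀ C : GaussianInt, ¬ (⟨1, 1⟩ : GaussianInt) ∣ C → Squarefree C →
      ∃ (w : GaussianInt) (S : Finset GaussianInt), IsUnit w ∧ (∀ p ∈ S, Prime p ∧ Primary p) ∧
        C = w * ∏ p ∈ S, p) ∧
    (∀ (K : Type) [Field K] [NumberField K] (e : GaussianInt ≃+* 𝓞 K) (w : GaussianInt)
      (S : Finset GaussianInt), IsUnit w → (∀ p ∈ S, Prime p ∧ Primary p) → Criterion e w S) ∧
    Filter.Tendsto (fun X : ℕ => ((Proved X).ncard : ℝ) / ((Family X).ncard : ℝ)) Filter.atTop
      (nhds (∏' i : ℕ, (1 - (1 / 2 : ℝ) ^ (2 * i + 1)))) ∧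
    (0.4194 : ℝ) < ∏' i : ℕ, (1 - (1 / 2 : ℝ) ^ (2 * i + 1)) ∧
    ∏' i : ℕ, (1 - (1 / 2 : ℝ) ^ (2 * i + 1)) < (0.4195 : ℝ) := by
  classical
  refine ⟨fun C h1 h2 => ?_, fun K _ _ e w S hw hS => criterion e hw
    fun p hp => (op_iff p).1 (hS p hp), ?_, Pool.Agent.Y948.CQ.t_C2.2.2.2⟩
  · obtain ⟨w, S, hw, hS, hC⟩ := Pool.Agent.E8helper75.F3.C.exists_wS h1 h2
    exact ⟨w, S, hw, fun p hp => (op_iff p).2 (hS p hp), hC⟩
  · refine Pool.Agent.E8helper75.F3D.exact.congr fun X => ?_
    rw [family_card, proved_card]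
    push_cast
    rw [mul_div_mul_left _ _ (by norm_num : (4 : ℝ) ≠ 0)]

end Pool.Agent.Results.MP_9ab903_nt.TwoPartAllOddTwistsH75
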