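import Pool.Agent.E8helper75.QI.AllA
import Pool.Agent.E8helper79.QI.ExK
import Pool.Agent.Y697.PP.Asy2
import Pool.Agent.Y948.CQ.C2

/-!
# The 2-part of the strong conjecture of Birch and Swinnerton-Dyer for the curves `y² = x³ + 2 D x` over
# `ℚ(i)`

`K` is a number field with an isomorphism `e` of the ring `ℤ[i]` of Gaussian integers with its ring
of integers (so `K = ℚ(i)`), `S` is any finite set of primary primes of `ℤ[i]`, `D = ∏ p` (`p ∈ S`), and
`E_D : y² = x³ + 2 D x` is the quartic twist by `2 D` of `y² = x³ + x`. Let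
`z = L(E_D/K, 1) √|disc K| #E_D(K)_tors² / (Ω ∏ c_v)`, which is zero or the order of `Ш(E_D/K)`
according to the conjecture. With no hypothesis on the rank or on `Ш` we prove:
* `L(E_D/K, s)` is entire, the equation of `E_D` is minimal at all the finite places,
  `∏ c_v = 2 * 2 ^ #S`, and the order of the torsion subgroup is twice an odd number;
* `z` is integral at all the valuations of `ℂ` above two, and it is a unit at one of them iff it is so
  at all of them iff the group `E_D(K)` is finite and `Ш(E_D/K)[2]` is zero iff the matrix `mat S` over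
  `𝔽₂` of the quadratic residue symbols is not singular (the implication from algebra to analysis is a
  2-converse theorem, that from analysis to algebra is the 2-part of the formula);
* in this case `E_D(K)` is finite, the 2-primary part of `Ш(E_D/K)` is zero and `L(E_D/K, 1) ≠ 0`;
* the proportion of the primary squarefree `D` with this property, ordered by norm, exists and is
  `∏ (1 - 2 ^ (-(2 i + 1))) = 0.4194...`
-/

set_option autoImplicit false

namespace Pool.Agent.Results.MP_9ab903_nt.TwoPartQuarticTwistsH75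

open NumberField IsDedekindDomain
open Pool.Agent.TH841.NF.D (Sha)

/-- `g` is primary: `g ≡ 1` modulo `2 + 2i`. -/
def Primary (g : GaussianInt) : Prop := (⟨2, 2⟩ : GaussianInt) ∣ g - 1

/-- The curve `y² = x³ + 2 D x`, the quartic twist by `2 D` of the curve `y² = x³ + x`. -/
noncomputable def curve {K : Type} [Field K] [NumberField K] (e : GaussianInt ≃+* 𝓞 K)
    (D : GaussianInt) : WeierstrassCurve K :=
  ⟨0, 0, 0, algebraMap (𝓞 K) K (e (2 * D)), 0⟩

open scoped Classical in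
/-- The equation `E` is minimal at every finite place `v`, and `c v` is the Tamagawa number of `E` at
`v`: the index in `E(K_v)` of the subgroup of the points of nonsingular reduction. -/
def IsTamagawa {K : Type} [Field K] [NumberField K] (E : WeierstrassCurve K)
    (c : HeightOneSpectrum (𝓞 K) → ℕ) : Prop :=
  (∀ v : HeightOneSpectrum (𝓞 K),
    (E.baseChange (v.adicCompletion K)).IsMinimal (v.adicCompletionIntegers K) ∧
    ∃ H : AddSubgroup (E.baseChange (v.adicCompletion K)).toAffine.Point,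
      (∀ P, P ∈ H ↔ Pool.Agent.Y696.NonsingRed Valued.v (E.baseChange (v.adicCompletion K)) P) ∧
      H.index = c v) ∧
  {v | c v ≠ 1}.Finite

/-- `Λ` is the lattice of periods of the differential `dx / (2y + a₁x + a₃)` of the curve `E`, embedded
in the complex numbers by `σ`. -/
def IsPeriodLattice {K : Type} [Field K] (E : WeierstrassCurve K) (σ : K →+* ℂ)
    (Λ : PeriodPair) : Prop :=
  Λ.g₂ = σ E.c₄ / 12 ∧ Λ.g₃ = σ E.c₆ / 216

/-- Twice the area of a fundamental parallelogram of the lattice. -/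
noncomputable def period (Λ : PeriodPair) : ℝ := 2 * |((starRingEnd ℂ) Λ.ω₁ * Λ.ω₂).im|

open Classical in
/-- The order of the torsion subgroup of `E(K)`. -/
noncomputable def torsOrder {K : Type} [Field K] (E : WeierstrassCurve K) : ℕ :=
  Nat.card (AddCommGroup.torsion E.toAffine.Point)

/-- The order of the Tate-Shafarevich group predicted by the formula in rank zero, for the value `l` of
the L-function at `s = 1`: `l √|disc K| #E(K)_tors² / (Ω ∏ c_v)`. -/
noncomputable def anOrder {K : Type} [Field K] [NumberField K] (E : WeierstrassCurve K) (l : ℂ)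
    (Λ : PeriodPair) (c : HeightOneSpectrum (𝓞 K) → ℕ) : ℂ :=
  l * (Real.sqrt |(discr K : ℝ)| : ℝ) * (torsOrder E : ℂ) ^ 2 /
    ((period Λ : ℂ) * ((∏ᶠ v, c v : ℕ) : ℂ))

/-- `L` is an entire continuation of the L-series of `E`. -/
def IsL {K : Type} [Field K] [NumberField K] (E : WeierstrassCurve K) (L : ℂ → ℂ) : Prop :=
  Differentiable ℂ L ∧ ∀ s : ℂ, 3 / 2 < s.re →
    LSeriesSummable ((fun n : ℤ => (n : ℂ)) ∘ E.LFunction) s ∧ L s = E.LSeries s

open Classical in
/-- `0` if `a` is a square modulo `p`, and `1` if it is not. -/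
noncomputable def nonsq (a p : GaussianInt) : ZMod 2 := if ∃ b : GaussianInt, p ∣ b ^ 2 - a then 0 else 1

/-- The matrix over the field with two elements, with rows and columns indexed by the set `S` of primary
primes of `ℤ[i]`: the entry at `(p, q)` is `nonsq p q` for `p ≠ q`, and the entry at `(p, p)` is the sum
of `nonsq i p` and of the `nonsq p q` for the `q ≠ p` in `S`. -/
noncomputable def mat (S : Finset GaussianInt) : Matrix S S (ZMod 2) := Matrix.of fun p q =>
  if q = p then nonsq ⟨0, 1⟩ p + ∑ r ∈ S.erase (p : GaussianInt), nonsq p r else nonsq p q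

/-- The 2-part of the conjecture of Birch and Swinnerton-Dyer for a curve `E` over an imaginary quadratic
field `K`, in the case that the predicted order of `Ш` is a unit above two: `E(K)` is finite, the
2-primary part of `Ш(E/K)` is trivial, `L(E/K, s)` is entire, `L(E/K, 1) ≠ 0`, and the predicted order of
`Ш(E/K)` is a unit at every valuation `w` of the field of complex numbers with `w 2 < 1`. -/
def TwoPart {K : Type} [Field K] [NumberField K] (E : WeierstrassCurve K) : Prop :=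
  Finite E.toAffine.Point ∧ (∀ (n : ℕ) (x : Sha E), 2 ^ n • x = 0 → x = 0) ∧
  ∃ (L : ℂ → ℂ) (c : HeightOneSpectrum (𝓞 K) → ℕ), IsL E L ∧ L 1 ≠ 0 ∧ IsTamagawa E c ∧
    ∀ σ : K →+* ℂ, (∃ Λ : PeriodPair, IsPeriodLattice E σ Λ) ∧
      ∀ Λ : PeriodPair, IsPeriodLattice E σ Λ →
        ∀ (Γ : Type) [LinearOrderedCommGroupWithZero Γ] (w : Valuation ℂ Γ), w 2 < 1 →
          w (anOrder E (L 1) Λ c) = 1

/-- The group `E(K)` is finite and `Ш(E/K)` has no element of order two. -/
def NoSelmer {K : Type} [Field K] [NumberField K] (E : WeierstrassCurve K) : Prop :=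
  Finite E.toAffine.Point ∧ ∀ x : Sha E, 2 • x = 0 → x = 0

/-- The statement for the primary `D = ∏ p`, `p ∈ S`. -/
def Criterion {K : Type} [Field K] [NumberField K] (e : GaussianInt ≃+* 𝓞 K)
    (S : Finset GaussianInt) : Prop :=
  (∃ (L : ℂ → ℂ) (c : HeightOneSpectrum (𝓞 K) → ℕ), IsL (curve e (∏ p ∈ S, p)) L ∧
    IsTamagawa (curve e (∏ p ∈ S, p)) c ∧ ∏ᶠ v, c v = 2 * 2 ^ S.card ∧
    (∃ t : ℕ, Odd t ∧ torsOrder (curve e (∏ p ∈ S, p)) = 2 * t) ∧
    ∀ σ : K →+* ℂ, (∃ Λ : PeriodPair, IsPeriodLattice (curve e (∏ p ∈ S, p)) σ Λ) ∧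
      ∀ Λ : PeriodPair, IsPeriodLattice (curve e (∏ p ∈ S, p)) σ Λ →
        ∀ (Γ : Type) [LinearOrderedCommGroupWithZero Γ] (w : Valuation ℂ Γ), w 2 < 1 →
          w (anOrder (curve e (∏ p ∈ S, p)) (L 1) Λ c) ≤ 1 ∧
          (w (anOrder (curve e (∏ p ∈ S, p)) (L 1) Λ c) = 1 ↔ NoSelmer (curve e (∏ p ∈ S, p)))) ∧
  (NoSelmer (curve e (∏ p ∈ S, p)) ↔ (mat S).det ≠ 0) ∧
  ((mat S).det ≠ 0 → TwoPart (curve e (∏ p ∈ S, p)))

/-- The primary squarefree Gaussian integers of norm at most `X`. -/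
def Family (X : ℕ) : Set GaussianInt := {D | D.norm.natAbs ≤ X ∧ Primary D ∧ Squarefree D}

/-- Those `D` such that the 2-part of the conjecture holds for `y² = x³ + 2 D x` over `K = ℚ(i)` (every
number field `K` with an isomorphism `e` of `ℤ[i]` with its ring of integers), with a predicted order of
`Ш` that is a unit above two. -/
def Proved (X : ℕ) : Set GaussianInt :=
  {D | D ∈ Family X ∧ ∀ (K : Type) [Field K] [NumberField K] (e : GaussianInt ≃+* 𝓞 K),
    TwoPart (curve e D)}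

section proof

open Pool.Agent.R428.G
open Pool.Agent.E8helper75.QK
open Pool.Agent.E8helper21.Q2 (S_LK S_VAL S_M0 S_HCK S_LHE)
open Pool.Agent.Y697.MQ (OP leg ci gA gθ leg_I leg_cases leg_eq_zero Pr_iff)
open Pool.Agent.Y697.PP (Mt SS mem_SS Dt NS prod_inj many_Dt)
open Pool.Agent.Y715.Z (em0 em0_ne q4 q4_map q4_c₄)

lemma op_iff (p : GaussianInt) : Prime p ∧ Primary p ↔ OP p :=
  ⟨fun h => ⟨h.1, (Pr_iff p).2 h.2⟩, fun h => ⟨h.pr, (Pr_iff p).1 h.pm⟩⟩

lemma nonsq_eq {a p : GaussianInt} (h : ¬ p ∣ a) : nonsq a p = if leg p a = -1 then 1 else 0 := by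
  unfold nonsq leg
  rw [if_neg h]
  by_cases h1 : ∃ b : GaussianInt, p ∣ b ^ 2 - a
  · rw [if_pos h1, if_pos h1, if_neg (by norm_num)]
  · rw [if_neg h1, if_neg h1, if_pos rfl]

lemma mat_eq {S : Finset GaussianInt} (hS : ∀ l ∈ S, OP l) : mat S = Mt gA gθ S := by
  have hA : ∀ p ∈ S, ∀ q ∈ S, q ≠ p → nonsq p q = gA p q := by
    intro p hp q hq hne
    rw [nonsq_eq fun h => hne ((hS q hq).dvd (hS p hp) h)]
    rfl
  have hθ : ∀ p ∈ S, nonsq ⟨0, 1⟩ p = gθ p := by
    intro p hp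
    have h1 : ¬ p ∣ (⟨0, 1⟩ : GaussianInt) := fun h => (hS p hp).pr.not_isUnit
      (isUnit_of_dvd_unit h (IsUnit.of_mul_eq_one (⟨0, -1⟩ : GaussianInt) (by decide)))
    rw [nonsq_eq h1]
    unfold gθ
    rw [← leg_I (hS p hp)]
  ext p q
  unfold mat Mt
  rw [Matrix.of_apply]
  by_cases h : q = p
  · rw [if_pos h, if_pos h, hθ p p.2]
    congr 1
    refine Finset.sum_congr rfl fun r hr => ?_
    rw [Finset.mem_erase] at hr
    exact hA p p.2 r hr.2 hr.1
  · rw [if_neg h, if_neg h]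
    exact hA p p.2 q q.2 fun h' => h (Subtype.ext h')

/-- The criterion. -/
theorem criterion (hLK : S_LK) (hLKm : S_LKm) (hVAL : S_VAL) (hVALm : S_VALm) (hPRD : S_PRD)
    (hM0 : S_M0) (hHCK : S_HCK) (hHCKm : S_HCKm) (hLHE : S_LHE) (hLHEm : S_LHEm) (hCHE : S_CHE)
    (hMIN : S_MINK) (hTAM : S_TAMK) (hTAP : S_TAMP) (hTOR : S_TORK) (hSHA : S_SHAK) (hCNV : S_CNVK)
    (hLS : S_LSK) (hVZ : S_VALZ)
    {K : Type} [Field K] [NumberField K] (e : GaussianInt ≃+* 𝓞 K)
    {S : Finset GaussianInt} (hS : ∀ l ∈ S, OP l) : Criterion e S := by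
  classical
  obtain ⟨q, X, L', Ω, m, M, hHC, hX1, hX2, hX3, hG, hm4, hLH, hval⟩ :=
    exists_X hLK hLKm hVAL hVALm hPRD hM0 hHCK hHCKm hLHE hLHEm hCHE hS
  set D : GaussianInt := ∏ l ∈ S, l with hD
  have hsq : Squarefree D := sqf_prod hS
  have hB2 : B2 S = 2 * D := rfl
  have hBne : B2 S ≠ 0 := by
    rw [hB2]
    exact mul_ne_zero (by decide) hsq.ne_zero
  have hB0 : em0 e (B2 S) ≠ 0 := em0_ne e hBne
  obtain ⟨t, ht, htor⟩ := hTOR K e S hS
  obtain ⟨hcf, hcp⟩ := hTAP K e S hS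
  set L : ℂ → ℂ := Pool.Agent.Y699.LG X with hL
  have hL1 : L 1 = M * (starRingEnd ℂ) M := by
    rw [hL]
    unfold Pool.Agent.Y699.LG
    have e1 : (1 : ℂ) - 1 / 2 = 1 / 2 := by norm_num
    rw [map_one, e1, hLH, Complex.conj_conj, mul_comm]
  have htor' : torsOrder (curve e D) = 2 * t := by
    rw [← htor]
    unfold torsOrder
    congr!
  have hIsL : IsL (curve e D) L :=
    ⟨Pool.Agent.Y699.LG_diff hHC, fun s hs => hLS K e S hS q X hHC hX1 hX2 hX3 s hs⟩
  have hTam : IsTamagawa (curve e D) (cK e S) := by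
    refine ⟨fun v => ?_, hcf⟩
    have hbc : (curve e D).baseChange (v.adicCompletion K) =
        q4 (algebraMap K (v.adicCompletion K) (em0 e (B2 S))) := q4_map _ _
    rw [hbc]
    exact ⟨hMIN K e S hS v, hTAM K e S hS v⟩
  have hnorm : D.norm % 2 = 1 := Pool.Agent.H304R2.EC.A1.prim_norm_odd
    ((Pool.Agent.Y697.MQ.prim_iff_Pr D).2 (Pool.Agent.Y697.MQ.Pr_prod fun x hx => (hS x hx).pm))
  have hper : ∀ σ : K →+* ℂ, (∃ Λ : PeriodPair, IsPeriodLattice (curve e D) σ Λ) ∧
      ∀ Λ : PeriodPair, IsPeriodLattice (curve e D) σ Λ →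
        ∀ (Γ : Type) [LinearOrderedCommGroupWithZero Γ] (w : Valuation ℂ Γ), w 2 < 1 →
          w (anOrder (curve e D) (L 1) Λ (cK e S)) ≤ 1 ∧
          (w (anOrder (curve e D) (L 1) Λ (cK e S)) = 1 ↔ (mat S).det ≠ 0) := by
    intro σ
    have h4 : σ (curve e D).c₄ / 12 = -4 * σ (em0 e (B2 S)) := by
      have h5 : (curve e D).c₄ = -48 * em0 e (B2 S) := q4_c₄ _
      rw [h5, map_mul, map_neg, map_ofNat]
      ring
    have h6 : σ (curve e D).c₆ / 216 = 0 := by
      have h7 : (curve e D).c₆ = 0 := by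
        simp only [curve, WeierstrassCurve.c₆, WeierstrassCurve.b₂, WeierstrassCurve.b₄,
          WeierstrassCurve.b₆]
        ring
      rw [h7, map_zero, zero_div]
    have hδ : ‖σ (em0 e (B2 S))‖ = 2 * ‖Pool.Agent.H304R3.HK.tc D‖ := by
      rw [Pool.Agent.Y715.Z.norm_emb e σ (B2 S), hB2, Pool.Agent.W164.RC.tc_mul, norm_mul]
      congr 1
      have : Pool.Agent.H304R3.HK.tc (2 : GaussianInt) = 2 := by
        rw [show (2 : GaussianInt) = 1 + 1 by decide, Pool.Agent.Y699.tc_add, Pool.Agent.Y699.tc_one]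
        norm_num
      rw [this]
      simp
    have hσ0 : σ (em0 e (B2 S)) ≠ 0 := by
      rw [Ne, map_eq_zero]; exact hB0
    refine ⟨?_, fun Λ hΛ Γ _ w hw => ?_⟩
    · obtain ⟨Λ, h8, h9⟩ := Pool.Agent.Y715.Z.per_ex hσ0
      exact ⟨Λ, by rw [h4]; exact h8, by rw [h6]; exact h9⟩
    · have h10 := hVZ Γ w hw L' Ω hG m hm4 S.card M ((Mt gA gθ S).det ≠ 0) (hval Γ) D hnorm _ hδ Λ
        (hΛ.1.trans h4) (hΛ.2.trans h6) t ht
      have h11 : anOrder (curve e D) (L 1) Λ (cK e S) =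
          M * (starRingEnd ℂ) M * 2 * ((2 * t : ℕ) : ℂ) ^ 2 /
            (((2 * |((starRingEnd ℂ) Λ.ω₁ * Λ.ω₂).im| : ℝ) : ℂ) * ((2 * 2 ^ S.card : ℕ) : ℂ)) := by
        unfold anOrder period
        rw [Pool.Agent.Y715.Z.sqrt_discr e, htor', hcp, hL1]
        push_cast
        rfl
      rw [h11, mat_eq hS]
      exact h10
  -- the converse
  have hconv : NoSelmer (curve e D) → (mat S).det ≠ 0 := by
    rintro ⟨h1, h2⟩ h3
    rw [mat_eq hS] at h3
    exact hCNV K e S hS h3 h1 h2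
  have hmain : (mat S).det ≠ 0 → NoSelmer (curve e D) ∧ TwoPart (curve e D) := by
    intro hdet
    have hT : Pool.Agent.Y682.IsT (curve e D) 0 (em0 e (B2 S)) :=
      { h1 := rfl, h2 := rfl, h3 := rfl, h4 := rfl, h6 := rfl, hB := hB0
        hD := by
          rw [zero_pow two_ne_zero, zero_sub, neg_ne_zero]
          exact mul_ne_zero (by norm_num) hB0 }
    have hker := Pool.Agent.Y697.PP.ker_of_det gA gθ (S := S) (by rw [← mat_eq hS]; exact hdet)
    obtain ⟨hr, hsha⟩ := hSHA K e S hS hker _ hT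
    have hper2 : ∀ σ : K →+* ℂ, (∃ Λ : PeriodPair, IsPeriodLattice (curve e D) σ Λ) ∧
        ∀ Λ : PeriodPair, IsPeriodLattice (curve e D) σ Λ →
          ∀ (Γ : Type) [LinearOrderedCommGroupWithZero Γ] (w : Valuation ℂ Γ), w 2 < 1 →
            w (anOrder (curve e D) (L 1) Λ (cK e S)) = 1 := fun σ =>
      ⟨(hper σ).1, fun Λ hΛ Γ _ w hw => ((hper σ).2 Λ hΛ Γ w hw).2.2 hdet⟩
    have hL10 : L 1 ≠ 0 := by
      intro h0
      obtain ⟨B, hB⟩ := Pool.Agent.Y697.MQ.exists_val
      obtain ⟨σ⟩ : Nonempty (K →+* ℂ) := inferInstance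
      obtain ⟨⟨Λ, hΛ⟩, h2⟩ := hper2 σ
      have h3 := h2 Λ hΛ _ B.valuation hB
      unfold anOrder at h3
      rw [h0, zero_mul, zero_mul, zero_div, map_zero] at h3
      exact zero_ne_one h3
    have hfin : Finite (curve e D).toAffine.Point := by
      have hfg : Module.Finite ℤ (Pool.Agent.Y682.MP (curve e D)) := Pool.Agent.Y682.fg_MP hT
      have htors := Module.finrank_eq_zero_iff_isTorsion.1 hr
      exact Module.finite_of_fg_torsion (Pool.Agent.Y682.MP (curve e D)) htors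
    have hpow : ∀ (n : ℕ) (x : Sha (curve e D)), 2 ^ n • x = 0 → x = 0 := by
      intro n
      induction n with
      | zero => intro x hx; rwa [pow_zero, one_smul] at hx
      | succ n ih =>
        intro x hx
        apply hsha
        apply ih
        rw [← mul_smul, ← pow_succ]
        exact hx
    exact ⟨⟨hfin, hsha⟩, hfin, hpow, L, cK e S, hIsL, hL10, hTam, hper2⟩
  have hiff : NoSelmer (curve e D) ↔ (mat S).det ≠ 0 := ⟨hconv, fun h => (hmain h).1⟩
  exact ⟨⟨L, cK e S, hIsL, hTam, hcp, ⟨t, ht, htor'⟩, fun σ => ⟨(hper σ).1, fun Λ hΛ Γ _ w hw =>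
    ⟨((hper σ).2 Λ hΛ Γ w hw).1, ((hper σ).2 Λ hΛ Γ w hw).2.trans hiff.symm⟩⟩⟩, hiff,
    fun h => (hmain h).2⟩

theorem family_eq (X : ℕ) : Family X =
    (((SS X).image fun S => ∏ p ∈ S, p : Finset GaussianInt) : Set GaussianInt) := by
  classical
  ext D
  rw [Finset.mem_coe, Finset.mem_image]
  constructor
  · rintro ⟨h1, h2, h3⟩
    obtain ⟨T, hT, e, he, hDe⟩ := Pool.Agent.Y697.MQ.exists_ker2 D ((Pr_iff D).2 h2)
    have he1 : e = 1 := by
      apply he.unit
      apply h3 e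
      rw [hDe, pow_two]
      exact dvd_mul_left _ _
    rw [he1, one_pow, mul_one] at hDe
    refine ⟨T, mem_SS.2 ⟨fun p hp => (hT p hp).1, ?_⟩, hDe.symm⟩
    unfold NS
    rw [← hDe]
    exact h1
  · rintro ⟨S, hS, rfl⟩
    rw [mem_SS] at hS
    exact ⟨hS.2, (Pr_iff _).1 (Pool.Agent.Y697.MQ.Pr_prod fun x hx => (hS.1 x hx).pm), sqf_prod hS.1⟩

theorem family_card (X : ℕ) : (Family X).ncard = (SS X).card := by
  classical
  rw [family_eq, Set.ncard_coe_finset, Finset.card_image_of_injOn]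
  intro S hS T hT h
  rw [Finset.mem_coe, mem_SS] at hS hT
  exact prod_inj hS.1 hT.1 h

open scoped Classical in
theorem proved_card (hcrit : ∀ (K : Type) [Field K] [NumberField K] (e : GaussianInt ≃+* 𝓞 K),
    ∀ S : Finset GaussianInt, (∀ l ∈ S, OP l) → Criterion e S) (X : ℕ) :
    (Proved X).ncard = ((SS X).filter fun S => Dt S).card := by
  have h1 : Proved X = ((((SS X).filter fun S => Dt S).image fun S => ∏ p ∈ S, p :
      Finset GaussianInt) : Set GaussianInt) := by
    ext D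
    rw [Finset.mem_coe, Finset.mem_image]
    constructor
    · rintro ⟨h1, h2⟩
      rw [family_eq, Finset.mem_coe, Finset.mem_image] at h1
      obtain ⟨S, hS, rfl⟩ := h1
      refine ⟨S, ?_, rfl⟩
      rw [Finset.mem_filter]
      refine ⟨hS, ?_⟩
      rw [mem_SS] at hS
      obtain ⟨g1, g2, -⟩ := h2 Pool.Agent.E8helper21.QT.GF Pool.Agent.E8helper21.QT.eGF
      have h4 := (hcrit _ Pool.Agent.E8helper21.QT.eGF S hS.1).2.1.1
        ⟨g1, fun x hx => g2 1 x (by rw [pow_one]; exact hx)⟩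
      rw [mat_eq hS.1] at h4
      exact h4
    · rintro ⟨S, hS, rfl⟩
      rw [Finset.mem_filter] at hS
      refine ⟨?_, fun K _ _ e => ?_⟩
      · rw [family_eq, Finset.mem_coe, Finset.mem_image]
        exact ⟨S, hS.1, rfl⟩
      · have hS1 := (mem_SS.1 hS.1).1
        apply (hcrit K e S hS1).2.2
        rw [mat_eq hS1]
        exact hS.2
  rw [h1, Set.ncard_coe_finset, Finset.card_image_of_injOn]
  intro S hS T hT h
  rw [Finset.mem_coe, Finset.mem_filter, mem_SS] at hS hT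
  exact prod_inj hS.1.1 hT.1.1 h

end proof

open Pool.Agent.E8helper75.QI in
/-- **Main theorem.** For every finite set `S` of primary primes the statement `Criterion` holds for
`y² = x³ + 2 D x`, `D = ∏ p`; and the proportion of the primary squarefree `D` of norm at most `X` that
satisfy `TwoPart` tends to `∏ (1 - 2 ^ (-(2 i + 1))) = 0.4194...` as `X` grows. -/
theorem result :
    (∀ (K : Type) [Field K] [NumberField K] (e : GaussianInt ≃+* 𝓞 K) (S : Finset GaussianInt),
      (∀ p ∈ S, Prime p ∧ Primary p) → Criterion e S) ∧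
    Filter.Tendsto (fun X : ℕ => ((Proved X).ncard : ℝ) / ((Family X).ncard : ℝ)) Filter.atTop
      (nhds (∏' i : ℕ, (1 - (1 / 2 : ℝ) ^ (2 * i + 1)))) ∧
    (0.4194 : ℝ) < ∏' i : ℕ, (1 - (1 / 2 : ℝ) ^ (2 * i + 1)) ∧
    ∏' i : ℕ, (1 - (1 / 2 : ℝ) ^ (2 * i + 1)) < (0.4195 : ℝ) := by
  classical
  refine ⟨fun K _ _ e S hS => criterion a_LK a_LKm a_VAL a_VALm a_PRD a_M0 a_HCK a_HCKm a_LHE a_LHEm a_CHE a_MINK a_TAMK a_TAMP a_TORK
      a_SHAK a_CNVK a_LSK a_VALZ e
    fun p hp => (op_iff p).1 (hS p hp), ?_, Pool.Agent.Y948.CQ.t_C2.2.2.2⟩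
  have h := Pool.Agent.E8helper79.QI.t_EXK
  unfold S_EXK at h
  refine h.congr fun X => ?_
  rw [family_card, proved_card fun K _ _ e S hS => criterion a_LK a_LKm a_VAL a_VALm a_PRD a_M0 a_HCK a_HCKm a_LHE a_LHEm a_CHE a_MINK a_TAMK a_TAMP a_TORK
      a_SHAK a_CNVK a_LSK a_VALZ e hS]

end Pool.Agent.Results.MP_9ab903_nt.TwoPartQuarticTwistsH75
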